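import Pool.Agent.Helper11.PC.Defs
import Pool.Agent.Helper28.Para.Embed

/-!
# Project PC, packet DERX
-/

set_option autoImplicit false

namespace Pool.Agent.Helper86.PC

universe u v w

open MonoidAlgebra Pool.Agent.Helper28.Para Pool.Agent.Helper11.PC

/-! ## Derivations of free groups -/

section fder

variable {Y : Type v} {M : Type u} [AddCommGroup M] (ρ : FreeGroup Y →* AddMonoid.End M) (lam : Y → M)

theorem end_mul (f g : AddMonoid.End M) (m : M) : (f * g) m = f (g m) := rfl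

theorem rho_inv (g : FreeGroup Y) (m : M) : ρ g⁻¹ (ρ g m) = m := by
  rw [← end_mul, ← map_mul, inv_mul_cancel, map_one, AddMonoid.End.one_apply]

theorem rho_inv' (g : FreeGroup Y) (m : M) : ρ g (ρ g⁻¹ m) = m := by
  rw [← end_mul, ← map_mul, mul_inv_cancel, map_one, AddMonoid.End.one_apply]

/-- the permutation given by a generator -/
def genPerm (y : Y) : Equiv.Perm (M × FreeGroup Y) where
  toFun q := (lam y + ρ (FreeGroup.of y) q.1, FreeGroup.of y * q.2)
  invFun q := (ρ (FreeGroup.of y)⁻¹ (q.1 - lam y), (FreeGroup.of y)⁻¹ * q.2)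
  left_inv q := by
    ext
    · show ρ (FreeGroup.of y)⁻¹ (lam y + ρ (FreeGroup.of y) q.1 - lam y) = q.1
      rw [add_sub_cancel_left, rho_inv]
    · show (FreeGroup.of y)⁻¹ * (FreeGroup.of y * q.2) = q.2
      group
  right_inv q := by
    ext
    · show lam y + ρ (FreeGroup.of y) (ρ (FreeGroup.of y)⁻¹ (q.1 - lam y)) = q.1
      rw [rho_inv', add_sub_cancel]
    · show FreeGroup.of y * ((FreeGroup.of y)⁻¹ * q.2) = q.2
      group

/-- the action of the free group -/
def perm : FreeGroup Y →* Equiv.Perm (M × FreeGroup Y) := FreeGroup.lift (genPerm ρ lam)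

/-- the derivation -/
def der (g : FreeGroup Y) : M := (perm ρ lam g (0, 1)).1

theorem perm_apply (g : FreeGroup Y) : ∀ m h,
    perm ρ lam g (m, h) = (der ρ lam g + ρ g m, g * h) := by
  have key : ∀ g : FreeGroup Y, (∃ d : M, ∀ m h, perm ρ lam g (m, h) = (d + ρ g m, g * h)) →
      ∀ m h, perm ρ lam g (m, h) = (der ρ lam g + ρ g m, g * h) := by
    rintro g ⟨d, hd⟩ m h
    have h1 : der ρ lam g = d := by
      unfold der
      rw [hd, map_zero, add_zero]
    rw [h1, hd]
  apply key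
  induction g using FreeGroup.induction_on with
  | C1 =>
    refine ⟨0, fun m h => ?_⟩
    rw [map_one, map_one, AddMonoid.End.one_apply, Equiv.Perm.one_apply, zero_add, one_mul]
  | of y =>
    refine ⟨lam y, fun m h => ?_⟩
    unfold perm
    rw [FreeGroup.lift_apply_of]
    rfl
  | inv_of y _ =>
    refine ⟨-ρ (FreeGroup.of y)⁻¹ (lam y), fun m h => ?_⟩
    unfold perm
    rw [map_inv, FreeGroup.lift_apply_of]
    show (ρ (FreeGroup.of y)⁻¹ (m - lam y), (FreeGroup.of y)⁻¹ * h) = _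
    rw [map_sub, sub_eq_neg_add]
  | mul x y hx hy =>
    obtain ⟨d, hd⟩ := hx
    obtain ⟨e, he⟩ := hy
    refine ⟨d + ρ x e, fun m h => ?_⟩
    rw [map_mul, Equiv.Perm.mul_apply, he, hd, map_mul, end_mul, map_add,
      add_assoc, mul_assoc]

end fder

theorem freeDer (Y : Type v) (M : Type u) [AddCommGroup M] : FreeDer Y M := by
  intro ρ lam
  refine ⟨der ρ lam, fun y => ?_, fun g h => ?_⟩
  · unfold der perm
    rw [FreeGroup.lift_apply_of]
    show lam y + ρ (FreeGroup.of y) 0 = lam y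
    rw [map_zero, add_zero]
  · have h1 : der ρ lam (g * h) = (perm ρ lam g (perm ρ lam h (0, 1))).1 := by
      unfold der
      rw [map_mul, Equiv.Perm.mul_apply]
    rw [h1, perm_apply ρ lam h, perm_apply ρ lam g, map_zero, add_zero]

/-! ## The image of the augmentation ideal -/

section

variable (A : Type u) [Ring A] (I : Ideal A) [I.IsTwoSided] (q : ℕ)

/-- the image of `I` in `A/I^q` -/
def imJ : Ideal (A ⧸ I ^ q) := Ideal.map (Ideal.Quotient.mk (I ^ q)) I

theorem mem_imJ (x : A ⧸ I ^ q) : x ∈ imJ A I q ↔ ∃ a ∈ I, Ideal.Quotient.mk (I ^ q) a = x :=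
  Ideal.mem_map_iff_of_surjective _ Ideal.Quotient.mk_surjective

instance : (imJ A I q).IsTwoSided := by
  refine ⟨?_⟩
  intro a b ha
  rw [mem_imJ] at ha ⊢
  obtain ⟨a', ha', rfl⟩ := ha
  obtain ⟨b', rfl⟩ := Ideal.Quotient.mk_surjective b
  exact ⟨a' * b', I.mul_mem_right _ ha', map_mul _ _ _⟩

theorem imJ_pow (k : ℕ) : imJ A I q ^ k ≤ Ideal.map (Ideal.Quotient.mk (I ^ q)) (I ^ k) := by
  induction k with
  | zero =>
    rw [Submodule.pow_zero, Submodule.pow_zero, Ideal.one_eq_top, Ideal.one_eq_top, Ideal.map_top]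
  | succ k ih =>
    rw [Submodule.pow_succ, Submodule.pow_succ, Ideal.mul_le]
    intro r hr s hs
    obtain ⟨a, ha, rfl⟩ := (Ideal.mem_map_iff_of_surjective _ Ideal.Quotient.mk_surjective).1 (ih hr)
    obtain ⟨b, hb, rfl⟩ := (mem_imJ A I q s).1 hs
    rw [← map_mul]
    exact Ideal.mem_map_of_mem _ (Ideal.mul_mem_mul ha hb)

theorem imJ_pow_q : imJ A I q ^ q = ⊥ := by
  rw [eq_bot_iff]
  refine (imJ_pow A I q q).trans ?_
  rw [Ideal.map_le_iff_le_comap]
  intro x hx
  rw [Ideal.mem_comap, Submodule.mem_bot]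
  exact Ideal.Quotient.eq_zero_iff_mem.2 hx

omit [I.IsTwoSided] in
theorem pow_le {q : ℕ} (hq : q ≠ 0) : I ^ q ≤ I := Ideal.pow_le_self hq

end

theorem aug_gl {N : Type u} [Group N] (g : N) : augHom N (gl g) = 1 := by
  unfold augHom
  rw [MonoidAlgebra.lift_single]
  simp

theorem derx {X : Type v} {G : Type u} [Group G]
    (hDERF : ∀ (R : Type u) [Ring R] (_hder : FreeDer X R) (J : Ideal R)
      [J.IsTwoSided] (q : ℕ) (_hJ : J ^ q = ⊥) (θ : FreeGroup X →* R) (_hθ : ∀ g, θ g - 1 ∈ J)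
      (lam : X → R),
      ∃ δ : FreeGroup X → R, (∀ x, δ (FreeGroup.of x) = lam x) ∧
        (∀ g h, δ (g * h) = δ g + θ g * δ h) ∧ (∀ g ∈ lcs (FreeGroup X) q, δ g = 0))
    (hG : IsParafreeOn X G) (χ : G → ℚ)
    (hχ : ∀ g h, χ (g * h) = χ g + χ h) (n q : ℕ) :
    ∃ δ : G → (MonoidAlgebra ℚ (G ⧸ lcs G n)) ⧸ (aug (G ⧸ lcs G n)) ^ q,
      (∀ g h, δ (g * h) =
        δ g + Ideal.Quotient.mk _ (gl (QuotientGroup.mk g : G ⧸ lcs G n)) * δ h) ∧
      ∀ g, ∃ y, δ g = Ideal.Quotient.mk _ y ∧ augHom _ y = χ g := by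
  obtain ⟨s, hs1, hs2⟩ := exists_good_hom hG
  let N := G ⧸ lcs G n
  let A := MonoidAlgebra ℚ N
  let π : A →+* A ⧸ (aug N) ^ q := Ideal.Quotient.mk ((aug N) ^ q)
  let θ0 : G →* A ⧸ (aug N) ^ q :=
    (π : A →* A ⧸ (aug N) ^ q).comp ((MonoidAlgebra.of ℚ N).comp (QuotientGroup.mk' (lcs G n)))
  have hθ0 : ∀ g, θ0 g = π (gl (QuotientGroup.mk g : N)) := fun g => rfl
  have hθ0n : ∀ g ∈ lcs G n, θ0 g = 1 := by
    intro g hg
    rw [hθ0, (QuotientGroup.eq_one_iff g).2 hg]
    exact map_one π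
  let θ : FreeGroup X →* A ⧸ (aug N) ^ q := θ0.comp s
  let lam : X → A ⧸ (aug N) ^ q := fun x => π (algebraMap ℚ A (χ (s (FreeGroup.of x))))
  obtain ⟨δF, hδ1, hδ2, hδ3⟩ := hDERF (A ⧸ (aug N) ^ q) (freeDer X _) (imJ A (aug N) q) q
    (imJ_pow_q A (aug N) q) θ (by
      intro g
      rw [mem_imJ]
      refine ⟨gl (QuotientGroup.mk (s g) : N) - 1, ?_, ?_⟩
      · show augHom N (gl (QuotientGroup.mk (s g) : N) - 1) = 0
        rw [map_sub, aug_gl, map_one, sub_self]
      · rw [map_sub, map_one]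
        rfl) lam
  have hQn : lcs G (max n q) ≤ lcs G n :=
    (⊤ : Subgroup G).lowerCentralSeries_antitone (le_max_left n q)
  have hQq : lcs (FreeGroup X) (max n q) ≤ lcs (FreeGroup X) q :=
    (⊤ : Subgroup (FreeGroup X)).lowerCentralSeries_antitone (le_max_right n q)
  choose w hw using hs2 (max n q)
  have key : ∀ g v, (s v)⁻¹ * g ∈ lcs G (max n q) → δF (w g) = δF v := by
    intro g v hv
    have h1 : s (v⁻¹ * w g) ∈ lcs G (max n q) := by
      have h2 := mul_mem hv (inv_mem (hw g))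
      have h3 : (s v)⁻¹ * g * ((s (w g))⁻¹ * g)⁻¹ = s (v⁻¹ * w g) := by
        rw [map_mul, map_inv]
        group
      rwa [h3] at h2
    have h4 := hδ3 _ (hQq (hs1 _ _ h1))
    have h5 : w g = v * (v⁻¹ * w g) := by group
    rw [h5, hδ2, h4, mul_zero, add_zero]
  have hθw : ∀ g, θ (w g) = θ0 g := by
    intro g
    have h1 : g = s (w g) * ((s (w g))⁻¹ * g) := by group
    have h2 : θ0 g = θ0 (s (w g)) * θ0 ((s (w g))⁻¹ * g) := by
      rw [← map_mul, ← h1]
    rw [h2, hθ0n _ (hQn (hw g)), mul_one]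
    rfl
  have hmul : ∀ g h, δF (w (g * h)) = δF (w g) + θ0 g * δF (w h) := by
    intro g h
    have h1 : (s (w g * w h))⁻¹ * (g * h) ∈ lcs G (max n q) := by
      have hn : (lcs G (max n q)).Normal := inferInstance
      have h2 := hn.conj_mem _ (hw g) (s (w h))⁻¹
      have h3 := mul_mem h2 (hw h)
      have h4 : (s (w h))⁻¹ * ((s (w g))⁻¹ * g) * ((s (w h))⁻¹)⁻¹ * ((s (w h))⁻¹ * h) =
          (s (w g * w h))⁻¹ * (g * h) := by
        rw [map_mul]
        group
      rwa [h4] at h3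
    rw [key _ _ h1, hδ2, hθw]
  refine ⟨fun g => δF (w g), fun g h => hmul g h, fun g => ?_⟩
  by_cases hq : q = 0
  · refine ⟨algebraMap ℚ A (χ g), ?_, ?_⟩
    · have : Subsingleton (A ⧸ (aug N) ^ q) := by
        rw [hq]
        rw [Ideal.Quotient.subsingleton_iff, Submodule.pow_zero, Ideal.one_eq_top]
      exact Subsingleton.elim _ _
    · exact (augHom N).commutes _
  · let ε : A ⧸ (aug N) ^ q →+* ℚ := Ideal.Quotient.lift ((aug N) ^ q) (augHom N : A →+* ℚ)
      fun a ha => pow_le A (aug N) hq ha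
    have hε : ∀ a, ε (π a) = augHom N a := fun a => rfl
    have hεθ : ∀ g, ε (θ0 g) = 1 := fun g => by
      rw [hθ0, hε, aug_gl]
    let η : G →* Multiplicative ℚ :=
      MonoidHom.mk' (fun g => Multiplicative.ofAdd (ε (δF (w g)) - χ g)) (by
        intro g h
        show Multiplicative.ofAdd _ = Multiplicative.ofAdd _ * Multiplicative.ofAdd _
        rw [← ofAdd_add, hmul, map_add, map_mul, hεθ, one_mul, hχ]
        congr 1
        ring)
    have hη : ∀ g, η g = Multiplicative.ofAdd (ε (δF (w g)) - χ g) := fun g => rfl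
    have hηs : ∀ v, η (s v) = 1 := by
      have h1 : η.comp s = 1 := by
        ext x
        show Multiplicative.toAdd (η (s (FreeGroup.of x))) = 0
        have h2 : δF (w (s (FreeGroup.of x))) = lam x := by
          rw [key _ (FreeGroup.of x) (by rw [inv_mul_cancel]; exact one_mem _), hδ1]
        rw [hη, h2]
        show ε (lam x) - χ (s (FreeGroup.of x)) = 0
        rw [hε, (augHom N).commutes]
        exact sub_self _
      intro v
      exact DFunLike.congr_fun h1 v
    have hη1 : ∀ g ∈ lcs G 1, η g = 1 := by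
      intro g hg
      have h1 : lcs G 1 = commutator G := Subgroup.top_lowerCentralSeries_one
      rw [h1] at hg
      exact Abelianization.commutator_subset_ker η hg
    have hall : ∀ g, η g = 1 := by
      intro g
      obtain ⟨v, hv⟩ := hs2 1 g
      have h1 : g = s v * ((s v)⁻¹ * g) := by group
      rw [h1, map_mul, hηs, hη1 _ hv, mul_one]
    obtain ⟨y, hy⟩ := Ideal.Quotient.mk_surjective (δF (w g))
    refine ⟨y, hy.symm, ?_⟩
    have h2 : ε (δF (w g)) - χ g = 0 := hall g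
    have h3 : augHom N y = ε (δF (w g)) := by
      rw [← hy]
      exact (hε y).symm
    rw [h3]
    linarith

end Pool.Agent.Helper86.PC
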